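import Pool.Agent.Helper36.SPR.St5
import Pool.Agent.Helper60.GP.M_S1
import Pool.Agent.Helper60.GP.M_S5

/-!
# Project SPR3 (MP_343216_nt), module BTD: Brun-Titchmarsh for prime power moduli
-/

set_option autoImplicit false

namespace Pool.Agent.Helper29.SPR

open Finset
open Pool.Agent.Helper36.SPR
open Pool.Agent.Helper60.GP (DD Qx)

/-- number of integers in a residue class and divisible by `L` -/
private theorem cnt_BTD (z D L : ℕ) (hD : 0 < D) (hL : 0 < L) (hc : Nat.Coprime D L) :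
    |(((Ioc z (2 * z)).filter (fun n => n ≡ 1 [MOD D] ∧ L ∣ n)).card : ℝ) - z / ((D : ℝ) * L)| ≤ 1 := by
  obtain ⟨v, hv1, hv2⟩ := Nat.chineseRemainder hc 1 0
  have hr : 0 < D * L := Nat.mul_pos hD hL
  have hf : (Ioc z (2 * z)).filter (fun n => n ≡ 1 [MOD D] ∧ L ∣ n) =
      (Ioc z (2 * z)).filter (fun n => n ≡ v [MOD (D * L)]) := by
    apply Finset.filter_congr
    intro n _
    rw [← Nat.modEq_and_modEq_iff_modEq_mul hc]
    constructor
    · rintro ⟨h1, h2⟩
      exact ⟨h1.trans hv1.symm, ((Nat.modEq_zero_iff_dvd).2 h2).trans hv2.symm⟩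
    · rintro ⟨h1, h2⟩
      exact ⟨h1.trans hv1, (Nat.modEq_zero_iff_dvd).1 (h2.trans hv2)⟩
  rw [hf]
  have h1 := Nat.Ioc_filter_modEq_card z (2 * z) hr v
  set c := ((Ioc z (2 * z)).filter (fun n => n ≡ v [MOD (D * L)])).card with hcd
  have hrQ : (0 : ℚ) < ((D * L : ℕ) : ℚ) := by exact_mod_cast hr
  set A : ℚ := (((2 * z : ℕ) : ℚ) - v) / ((D * L : ℕ) : ℚ) with hA
  set B : ℚ := ((z : ℚ) - v) / ((D * L : ℕ) : ℚ) with hB
  have hAB : A - B = z / ((D : ℚ) * L) := by
    rw [hA, hB, ← sub_div]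
    push_cast
    congr 1
    ring
  have hAB0 : 0 ≤ A - B := by rw [hAB]; positivity
  have a1 := Int.floor_le A
  have a2 := Int.lt_floor_add_one A
  have b1 := Int.floor_le B
  have b2 := Int.lt_floor_add_one B
  have h2 : |(c : ℚ) - (A - B)| ≤ 1 := by
    have h3 : (c : ℚ) = max ((⌊A⌋ : ℚ) - ⌊B⌋) 0 := by
      have : ((c : ℤ) : ℚ) = ((max (⌊A⌋ - ⌊B⌋) 0 : ℤ) : ℚ) := by
        rw [h1]
      push_cast at this
      exact this
    rw [h3, abs_le]
    constructor
    · have := le_max_left ((⌊A⌋ : ℚ) - ⌊B⌋) 0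
      linarith
    · rcases max_cases ((⌊A⌋ : ℚ) - ⌊B⌋) 0 with h | h <;> linarith
  rw [hAB] at h2
  have h3 : |(((c : ℚ) - z / ((D : ℚ) * L) : ℚ) : ℝ)| ≤ ((1 : ℚ) : ℝ) := by
    rw [← Rat.cast_abs]
    exact_mod_cast h2
  push_cast at h3
  exact h3

private theorem phi_BTD (d : ℕ) (hd : Squarefree d) :
    ∏ p ∈ d.primeFactors, (1 / (p : ℝ)) / (1 - 1 / p) = 1 / (Nat.totient d : ℝ) := by
  have h1 : Nat.totient d = ∏ p ∈ d.primeFactors, (p - 1) := by
    rw [Nat.totient_eq_div_primeFactors_mul, Nat.prod_primeFactors_of_squarefree hd,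
      Nat.div_self (Nat.pos_of_ne_zero hd.ne_zero), one_mul]
  rw [h1]
  push_cast
  rw [one_div, ← Finset.prod_inv_distrib]
  apply Finset.prod_congr rfl
  intro p hp
  have hpp := Nat.prime_of_mem_primeFactors hp
  have hp0 : (p : ℝ) ≠ 0 := by exact_mod_cast hpp.ne_zero
  have hp1 : (1 : ℝ) < p := by exact_mod_cast hpp.one_lt
  have hp2 : (p : ℝ) - 1 ≠ 0 := by linarith
  rw [Nat.cast_sub hpp.one_lt.le, Nat.cast_one]
  field_simp

/-- BTD. -/
theorem hBTD : StBTD := by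
  refine ⟨20, by norm_num, ?_⟩
  intro z l j hz hl hj hD2
  set D : ℕ := l ^ j with hDdef
  have hD0 : 0 < D := pow_pos hl.pos j
  have hDR : (0 : ℝ) < D := by exact_mod_cast hD0
  have hzR : (2 : ℝ) ≤ z := by exact_mod_cast hz
  have hz0 : (0 : ℝ) < z := by linarith
  set ξ : ℝ := (z : ℝ) ^ (1 / 8 : ℝ) with hξdef
  have hξ1 : 1 ≤ ξ := Real.one_le_rpow (by linarith) (by norm_num)
  have hξz : ξ ≤ z := by
    calc ξ ≤ (z : ℝ) ^ (1 : ℝ) := Real.rpow_le_rpow_of_exponent_le (by linarith) (by norm_num)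
      _ = z := Real.rpow_one _
  have hlogz : 0 < Real.log z := Real.log_pos (by linarith)
  have hlogξ : Real.log ξ = Real.log z / 8 := by
    rw [hξdef, Real.log_rpow hz0]; ring
  have hQ : ∀ p ∈ Qx l ξ, p.Prime ∧ 0 < (fun p : ℕ => 1 / (p : ℝ)) p ∧ (fun p : ℕ => 1 / (p : ℝ)) p < 1 := by
    intro p hp
    rw [Qx, mem_filter] at hp
    have hp1 : (1 : ℝ) < p := by exact_mod_cast hp.2.1.one_lt
    refine ⟨hp.2.1, by simp only; positivity, ?_⟩
    simp only
    rw [div_lt_one (by linarith)]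
    exact hp1
  obtain ⟨lam, hl1, hlb, hls⟩ := Pool.Agent.Helper60.GP.hSel (Qx l ξ) (fun p : ℕ => 1 / (p : ℝ)) ξ hQ hξ1
  set E : Finset ℕ := DD (Qx l ξ) ξ with hE
  have hEsq : ∀ d ∈ E, Squarefree d := fun d hd => (mem_filter.1 hd).2.1
  have hEsub : ∀ d ∈ E, d.primeFactors ⊆ Qx l ξ := fun d hd => (mem_filter.1 hd).2.2
  have hEle : ∀ d ∈ E, 1 ≤ d ∧ d ≤ ⌊ξ⌋₊ := fun d hd => mem_Icc.1 (mem_filter.1 hd).1
  -- the Selberg sum
  set G : ℝ := ∑ d ∈ E, ∏ p ∈ d.primeFactors, (1 / (p : ℝ)) / (1 - 1 / p) with hG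
  have hGlow : Real.log z / 16 ≤ G := by
    have h1 := Pool.Agent.Helper60.GP.hG1 l ξ hl hξ1
    have h2 : ∑ a ∈ (Icc 1 ⌊ξ⌋₊).filter (fun a => Squarefree a ∧ ¬ l ∣ a), 1 / (Nat.totient a : ℝ) ≤ G := by
      rw [hG, Finset.sum_congr rfl (fun d hd => phi_BTD d (hEsq d hd))]
      apply Finset.sum_le_sum_of_subset_of_nonneg
      · intro a ha
        rw [mem_filter, mem_Icc] at ha
        rw [hE, DD, mem_filter, mem_Icc]
        refine ⟨ha.1, ha.2.1, ?_⟩
        intro p hp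
        rw [Qx, mem_filter, mem_Icc]
        have hpp := Nat.prime_of_mem_primeFactors hp
        have hpa := Nat.dvd_of_mem_primeFactors hp
        refine ⟨⟨hpp.one_lt.le, (Nat.le_of_dvd ha.1.1 hpa).trans ha.1.2⟩, hpp, ?_⟩
        rintro rfl
        exact ha.2.2 hpa
      · intro a _ _
        positivity
    have hl2 : (2 : ℝ) ≤ l := by exact_mod_cast hl.two_le
    have h3 : (1 / 2 : ℝ) ≤ 1 - 1 / (l : ℝ) := by
      have : 1 / (l : ℝ) ≤ 1 / 2 := one_div_le_one_div_of_le (by norm_num) hl2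
      linarith
    have h4 : 0 ≤ Real.log ξ := Real.log_nonneg hξ1
    have h5 := mul_le_mul_of_nonneg_right h3 h4
    rw [hlogξ] at h1 h5
    linarith
  have hG0 : 0 < G := lt_of_lt_of_le (by positivity) hGlow
  -- the sum over the square
  have hone : (1 : ℕ) ∈ E := by
    rw [hE, DD, mem_filter, mem_Icc]
    refine ⟨⟨le_refl _, Nat.le_floor (by exact_mod_cast hξ1)⟩, squarefree_one, ?_⟩
    rw [Nat.primeFactors_one]
    exact empty_subset _
  set R : Finset ℕ := (Ioc z (2 * z)).filter (fun n => n ≡ 1 [MOD D]) with hR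
  have step1 : (((Ioc z (2 * z)).filter (fun p => p.Prime ∧ p ≡ 1 [MOD D])).card : ℝ) ≤
      ∑ n ∈ R, (∑ d ∈ E, if d ∣ n then lam d else 0) ^ 2 := by
    have h1 : (((Ioc z (2 * z)).filter (fun p => p.Prime ∧ p ≡ 1 [MOD D])).card : ℝ) =
        ∑ n ∈ (Ioc z (2 * z)).filter (fun p => p.Prime ∧ p ≡ 1 [MOD D]),
          (∑ d ∈ E, if d ∣ n then lam d else 0) ^ 2 := by
      rw [Finset.card_eq_sum_ones]
      push_cast
      apply Finset.sum_congr rfl
      intro n hn
      rw [mem_filter, mem_Ioc] at hn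
      have h2 : (∑ d ∈ E, if d ∣ n then lam d else 0) = 1 := by
        rw [Finset.sum_eq_single_of_mem 1 hone]
        · rw [if_pos (one_dvd n), hl1]
        · intro d hd hd1
          rw [if_neg]
          intro hdn
          rcases (Nat.dvd_prime hn.2.1).1 hdn with h | h
          · exact hd1 h
          · have h3 : (d : ℝ) ≤ z := by
              have := (hEle d hd).2
              have h4 : (d : ℝ) ≤ ⌊ξ⌋₊ := by exact_mod_cast this
              exact (h4.trans (Nat.floor_le (by linarith))).trans hξz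
            have h4 : d ≤ z := by exact_mod_cast h3
            omega
      rw [h2, one_pow]
    rw [h1]
    apply Finset.sum_le_sum_of_subset_of_nonneg
    · intro n hn
      rw [mem_filter] at hn
      rw [hR, mem_filter]
      exact ⟨hn.1, hn.2.2⟩
    · intro n _ _
      positivity
  have hpair : ∀ d ∈ E, ∀ e ∈ E, ∀ n : ℕ,
      (d ∣ n ∧ e ∣ n ↔ (∏ p ∈ (d * e).primeFactors, p) ∣ n) := by
    intro d hd e he n
    have hd0 := (hEsq d hd).ne_zero
    have he0 := (hEsq e he).ne_zero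
    rw [Nat.primeFactors_mul hd0 he0]
    constructor
    · rintro ⟨h1, h2⟩
      apply Finset.prod_primes_dvd
      · intro p hp
        rcases mem_union.1 hp with h | h
        · exact (Nat.prime_of_mem_primeFactors h).prime
        · exact (Nat.prime_of_mem_primeFactors h).prime
      · intro p hp
        rcases mem_union.1 hp with h | h
        · exact (Nat.dvd_of_mem_primeFactors h).trans h1
        · exact (Nat.dvd_of_mem_primeFactors h).trans h2
    · intro h
      constructor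
      · refine dvd_trans ?_ h
        conv_lhs => rw [← Nat.prod_primeFactors_of_squarefree (hEsq d hd)]
        exact Finset.prod_dvd_prod_of_subset _ _ _ subset_union_left
      · refine dvd_trans ?_ h
        conv_lhs => rw [← Nat.prod_primeFactors_of_squarefree (hEsq e he)]
        exact Finset.prod_dvd_prod_of_subset _ _ _ subset_union_right
  have step2 : ∑ n ∈ R, (∑ d ∈ E, if d ∣ n then lam d else 0) ^ 2 =
      ∑ d ∈ E, ∑ e ∈ E, lam d * lam e *
        (((Ioc z (2 * z)).filter (fun n => n ≡ 1 [MOD D] ∧ (∏ p ∈ (d * e).primeFactors, p) ∣ n)).card : ℝ) := by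
    have h1 : ∀ n ∈ R, (∑ d ∈ E, if d ∣ n then lam d else 0) ^ 2 =
        ∑ d ∈ E, ∑ e ∈ E, if (∏ p ∈ (d * e).primeFactors, p) ∣ n then lam d * lam e else 0 := by
      intro n _
      rw [sq, Finset.sum_mul_sum]
      apply Finset.sum_congr rfl
      intro d hd
      apply Finset.sum_congr rfl
      intro e he
      have h2 := hpair d hd e he n
      by_cases h3 : d ∣ n
      · by_cases h4 : e ∣ n
        · rw [if_pos h3, if_pos h4, if_pos (h2.1 ⟨h3, h4⟩)]
        · rw [if_pos h3, if_neg h4, if_neg (fun h => h4 (h2.2 h).2), mul_zero]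
      · rw [if_neg h3, if_neg (fun h => h3 (h2.2 h).1), zero_mul]
    rw [Finset.sum_congr rfl h1, Finset.sum_comm]
    apply Finset.sum_congr rfl
    intro d hd
    rw [Finset.sum_comm]
    apply Finset.sum_congr rfl
    intro e he
    rw [← Finset.sum_filter, Finset.sum_const, nsmul_eq_mul, mul_comm, hR, Finset.filter_filter]
  have step3 : ∀ d ∈ E, ∀ e ∈ E, lam d * lam e *
        (((Ioc z (2 * z)).filter (fun n => n ≡ 1 [MOD D] ∧ (∏ p ∈ (d * e).primeFactors, p) ∣ n)).card : ℝ) ≤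
      (z / (D : ℝ)) * (lam d * lam e * ∏ p ∈ (d * e).primeFactors, (1 / (p : ℝ))) + 1 := by
    intro d hd e he
    set L : ℕ := ∏ p ∈ (d * e).primeFactors, p with hL
    have hL0 : 0 < L := Finset.prod_pos (fun p hp => (Nat.prime_of_mem_primeFactors hp).pos)
    have hco : Nat.Coprime D L := by
      rw [hDdef, hL]
      apply Nat.Coprime.pow_left
      apply Nat.Coprime.prod_right
      intro p hp
      rw [Nat.primeFactors_mul (hEsq d hd).ne_zero (hEsq e he).ne_zero] at hp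
      have hpQ : p ∈ Qx l ξ := by
        rcases mem_union.1 hp with h | h
        · exact hEsub d hd h
        · exact hEsub e he h
      rw [Qx, mem_filter] at hpQ
      exact (Nat.coprime_primes hl hpQ.2.1).2 (fun h => hpQ.2.2 h.symm)
    have h1 := cnt_BTD z D L hD0 hL0 hco
    set c : ℝ := (((Ioc z (2 * z)).filter (fun n => n ≡ 1 [MOD D] ∧ L ∣ n)).card : ℝ) with hc
    have hP : ∏ p ∈ (d * e).primeFactors, (1 / (p : ℝ)) = 1 / (L : ℝ) := by
      rw [hL]
      push_cast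
      rw [Finset.prod_div_distrib, Finset.prod_const_one]
    rw [hP]
    have h2 : |lam d * lam e| ≤ 1 := by
      rw [abs_mul]
      exact mul_le_one₀ (hlb d) (abs_nonneg _) (hlb e)
    have h3 : lam d * lam e * (c - z / ((D : ℝ) * L)) ≤ 1 := by
      refine (le_abs_self _).trans ?_
      rw [abs_mul]
      exact mul_le_one₀ h2 (abs_nonneg _) h1
    have h4 : (z / (D : ℝ)) * (lam d * lam e * (1 / (L : ℝ))) = lam d * lam e * (z / ((D : ℝ) * L)) := by
      field_simp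
    rw [h4]
    linarith
  have hEcard : (E.card : ℝ) ≤ ξ := by
    have h1 : E.card ≤ (Icc 1 ⌊ξ⌋₊).card := Finset.card_le_card (Finset.filter_subset _ _)
    rw [Nat.card_Icc, Nat.add_sub_cancel] at h1
    have h2 : (E.card : ℝ) ≤ ⌊ξ⌋₊ := by exact_mod_cast h1
    exact h2.trans (Nat.floor_le (by linarith))
  have step4 : (((Ioc z (2 * z)).filter (fun p => p.Prime ∧ p ≡ 1 [MOD D])).card : ℝ) ≤
      (z / (D : ℝ)) * (1 / G) + ξ ^ 2 := by
    rw [step2] at step1
    refine step1.trans ((Finset.sum_le_sum (fun d hd => Finset.sum_le_sum (step3 d hd))).trans ?_)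
    have h1 : ∑ d ∈ E, ∑ e ∈ E,
        ((z / (D : ℝ)) * (lam d * lam e * ∏ p ∈ (d * e).primeFactors, (1 / (p : ℝ))) + 1) =
        (z / (D : ℝ)) * (∑ d ∈ E, ∑ e ∈ E, lam d * lam e * ∏ p ∈ (d * e).primeFactors, (1 / (p : ℝ))) +
        (E.card : ℝ) ^ 2 := by
      simp only [Finset.sum_add_distrib, Finset.sum_const, nsmul_eq_mul, mul_one, ← Finset.mul_sum]
      ring
    rw [h1, hls]
    have h2 : (E.card : ℝ) ^ 2 ≤ ξ ^ 2 := pow_le_pow_left₀ (Nat.cast_nonneg _) hEcard 2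
    linarith
  refine step4.trans ?_
  have e1 : (z / (D : ℝ)) * (1 / G) ≤ 16 * z / ((D : ℝ) * Real.log z) := by
    have h1 : 1 / G ≤ 16 / Real.log z := by
      rw [div_le_div_iff₀ hG0 hlogz]
      linarith
    calc (z / (D : ℝ)) * (1 / G) ≤ (z / (D : ℝ)) * (16 / Real.log z) :=
          mul_le_mul_of_nonneg_left h1 (by positivity)
      _ = 16 * z / ((D : ℝ) * Real.log z) := by
          field_simp
  have e2 : ξ ^ 2 ≤ 4 * z / ((D : ℝ) * Real.log z) := by
    have h1 : ξ ^ 2 = (z : ℝ) ^ (1 / 4 : ℝ) := by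
      rw [hξdef, ← Real.rpow_natCast, ← Real.rpow_mul hz0.le]
      norm_num
    have h2 : Real.log z ≤ 4 * (z : ℝ) ^ (1 / 4 : ℝ) := by
      have := Real.log_le_rpow_div hz0.le (show (0 : ℝ) < 1 / 4 by norm_num)
      linarith
    have h3 : (D : ℝ) ≤ (z : ℝ) ^ (1 / 2 : ℝ) := by
      rw [← Real.sqrt_eq_rpow]
      apply Real.le_sqrt_of_sq_le
      exact_mod_cast hD2
    have h4 : (z : ℝ) ^ (1 / 4 : ℝ) * ((z : ℝ) ^ (1 / 2 : ℝ) * (z : ℝ) ^ (1 / 4 : ℝ)) = z := by
      rw [← Real.rpow_add hz0, ← Real.rpow_add hz0]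
      norm_num
    rw [le_div_iff₀ (by positivity), h1]
    have h5 : 0 < (z : ℝ) ^ (1 / 4 : ℝ) := Real.rpow_pos_of_pos hz0 _
    have h6 : 0 < (z : ℝ) ^ (1 / 2 : ℝ) := Real.rpow_pos_of_pos hz0 _
    calc (z : ℝ) ^ (1 / 4 : ℝ) * ((D : ℝ) * Real.log z) ≤
        (z : ℝ) ^ (1 / 4 : ℝ) * ((z : ℝ) ^ (1 / 2 : ℝ) * (4 * (z : ℝ) ^ (1 / 4 : ℝ))) :=
          mul_le_mul_of_nonneg_left (mul_le_mul h3 h2 hlogz.le h6.le) h5.le
      _ = 4 * ((z : ℝ) ^ (1 / 4 : ℝ) * ((z : ℝ) ^ (1 / 2 : ℝ) * (z : ℝ) ^ (1 / 4 : ℝ))) := by ring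
      _ = 4 * z := by rw [h4]
  have e3 : (20 : ℝ) * z / ((l : ℝ) ^ j * Real.log z) =
      16 * z / ((D : ℝ) * Real.log z) + 4 * z / ((D : ℝ) * Real.log z) := by
    rw [hDdef]
    push_cast
    ring
  rw [e3]
  linarith

end Pool.Agent.Helper29.SPR
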