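import Pool.Agent.Helper36.SPR.St
import Pool.Agent.Helper36.SPR.St2

/-!
# Project SPR (MP_343216_nt), module PB2: probability that `p q` divides
-/

set_option autoImplicit false

namespace Pool.Agent.Helper29.SPR

open Pool.Agent.Helper36.SPR
open Finset

private theorem pow_bd2 (p : ℕ) (hp : 1 ≤ p) (ε : ℝ) (k m : ℕ) (h : (m : ℝ) ≤ ε * k) (x : ℝ) (hx0 : 0 ≤ x)
    (hx : x ≤ (p : ℝ) ^ (-ε)) : x ^ k ≤ 1 / (p : ℝ) ^ m := by
  have hp1 : (1 : ℝ) ≤ p := by exact_mod_cast hp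
  have hp0 : (0 : ℝ) < p := by linarith
  calc x ^ k ≤ ((p : ℝ) ^ (-ε)) ^ k := pow_le_pow_left₀ hx0 hx k
    _ = (p : ℝ) ^ (-ε * k) := by rw [Real.rpow_mul hp0.le, Real.rpow_natCast]
    _ ≤ (p : ℝ) ^ (-(m : ℝ)) := Real.rpow_le_rpow_of_exponent_le hp1 (by linarith)
    _ = 1 / (p : ℝ) ^ m := by rw [Real.rpow_neg hp0.le, Real.rpow_natCast, one_div]

private theorem cover2 (p q : ℕ) [NeZero p] [NeZero q] (hp : p.Prime) (hq : q.Prime) (a : ZMod (p * q)) :
    IsUnit a ∨ (∃ x < p, a = ((q * x : ℕ) : ZMod (p * q))) ∨ (∃ x < q, a = ((p * x : ℕ) : ZMod (p * q))) := by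
  have hval : a = ((a.val : ℕ) : ZMod (p * q)) := (ZMod.natCast_zmod_val a).symm
  have hlt : a.val < p * q := ZMod.val_lt a
  by_cases h1 : p ∣ a.val
  · right; right
    obtain ⟨x, hx⟩ := h1
    refine ⟨x, ?_, by rw [← hx]; exact hval⟩
    rw [hx] at hlt
    exact lt_of_mul_lt_mul_left hlt (Nat.zero_le p)
  by_cases h2 : q ∣ a.val
  · right; left
    obtain ⟨x, hx⟩ := h2
    refine ⟨x, ?_, by rw [← hx]; exact hval⟩
    rw [hx, mul_comm p q] at hlt
    exact lt_of_mul_lt_mul_left hlt (Nat.zero_le q)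
  left
  rw [hval, ZMod.isUnit_iff_coprime]
  exact Nat.Coprime.mul_right ((Nat.Prime.coprime_iff_not_dvd hp).mpr h1).symm
    ((Nat.Prime.coprime_iff_not_dvd hq).mpr h2).symm

/-- PB2. -/
theorem hPB2 (hPF : StPF) (hMC : StMC) (hEN : StEN) : StPB2 := by
  obtain ⟨e, he, p1, hE1, hE2⟩ := hEN
  refine ⟨⌈3 / e⌉₊, p1, ?_⟩
  intro p q T k _ _ hk hp0 hp hq hpq hqT hop hoq
  have hk2 : (3 : ℕ) ≤ e * k := by
    have h1 : 3 / e ≤ k := (Nat.le_ceil _).trans (by exact_mod_cast hk)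
    rw [div_le_iff₀ he] at h1
    push_cast
    linarith
  have hk1 : (2 : ℕ) ≤ e * k := by
    push_cast at hk2 ⊢
    linarith
  have hq2T : q ^ 2 ≤ T := (Nat.pow_le_pow_right hq.pos (by norm_num)).trans hqT
  have hp2T : p ^ 2 ≤ T := (Nat.pow_le_pow_left hpq.le 2).trans hq2T
  have hT : 0 < T := lt_of_lt_of_le (pow_pos hq.pos 2) hq2T
  have hP : (0 : ℝ) < p := by exact_mod_cast hp.pos
  have hQ : (0 : ℝ) < q := by exact_mod_cast hq.pos
  have hPQ : (p : ℝ) ≤ q := by exact_mod_cast hpq.le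
  -- the sets of the cover
  let A : Finset (ZMod (p * q)) := (range p).image (fun x => ((q * x : ℕ) : ZMod (p * q)))
  let B : Finset (ZMod (p * q)) := (range q).image (fun x => ((p * x : ℕ) : ZMod (p * q)))
  let f : ZMod (p * q) → ℝ := fun a => if a = 0 then 0 else ‖mu (p * q) T a‖ ^ k
  have hcard : Fintype.card (ZMod (p * q)) = p * q := ZMod.card (p * q)
  have hf : ∀ a, f a ≤ 1 / (q : ℝ) ^ 3 + ((if a ∈ A then 1 / (p : ℝ) ^ 2 else 0) +
      (if a ∈ B then 1 / (q : ℝ) ^ 2 else 0)) := by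
    intro a
    have i1 : 0 ≤ 1 / (q : ℝ) ^ 3 := by positivity
    have i2 : 0 ≤ (if a ∈ A then 1 / (p : ℝ) ^ 2 else 0) := by split_ifs <;> positivity
    have i3 : 0 ≤ (if a ∈ B then 1 / (q : ℝ) ^ 2 else 0) := by split_ifs <;> positivity
    by_cases ha : a = 0
    · have : f a = 0 := if_pos ha
      rw [this]; linarith
    have hfa : f a = ‖mu (p * q) T a‖ ^ k := if_neg ha
    rw [hfa]
    rcases cover2 p q hp hq a with hu | ⟨x, hx, hax⟩ | ⟨x, hx, hax⟩
    · have h1 := hE2 p q T hp0 hp hq hpq hqT hop hoq a hu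
      have h3 := pow_bd2 q hq.one_lt.le e k 3 hk2 _ (norm_nonneg _) h1
      linarith
    · have hxa : a ∈ A := by
        rw [hax]
        exact mem_image_of_mem _ (mem_range.mpr hx)
      have hx0 : ((x : ℕ) : ZMod p) ≠ 0 := by
        intro h0
        rw [ZMod.natCast_eq_zero_iff] at h0
        apply ha
        rw [hax, ZMod.natCast_eq_zero_iff]
        rw [mul_comm q x]
        exact Nat.mul_dvd_mul_right h0 q
      have h1 := hE1 p T hp0 hp hp2T hop (x : ZMod p) hx0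
      have h3 := pow_bd2 p hp.one_lt.le e k 2 hk1 _ (norm_nonneg _) h1
      rw [hax, (hMC p q T x).1]
      rw [← hax, if_pos hxa]
      linarith
    · have hxb : a ∈ B := by
        rw [hax]
        exact mem_image_of_mem _ (mem_range.mpr hx)
      have hx0 : ((x : ℕ) : ZMod q) ≠ 0 := by
        intro h0
        rw [ZMod.natCast_eq_zero_iff] at h0
        apply ha
        rw [hax, ZMod.natCast_eq_zero_iff]
        exact Nat.mul_dvd_mul_left p h0
      have h1 := hE1 q T (hp0.trans hpq.le) hq hq2T hoq (x : ZMod q) hx0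
      have h3 := pow_bd2 q hq.one_lt.le e k 2 hk1 _ (norm_nonneg _) h1
      rw [hax, (hMC p q T x).2]
      rw [← hax, if_pos hxb]
      linarith
  have hA : (A.card : ℝ) ≤ p := by
    have := card_image_le (s := range p) (f := fun x => ((q * x : ℕ) : ZMod (p * q)))
    rw [card_range] at this
    exact_mod_cast this
  have hB : (B.card : ℝ) ≤ q := by
    have := card_image_le (s := range q) (f := fun x => ((p * x : ℕ) : ZMod (p * q)))
    rw [card_range] at this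
    exact_mod_cast this
  have hsum : ∑ a, f a ≤ 3 / p := by
    have h1 : ∑ a, f a ≤ ∑ a : ZMod (p * q), (1 / (q : ℝ) ^ 3 + ((if a ∈ A then 1 / (p : ℝ) ^ 2 else 0) +
      (if a ∈ B then 1 / (q : ℝ) ^ 2 else 0))) := sum_le_sum (fun a _ => hf a)
    have h2' : ∑ a : ZMod (p * q), (1 / (q : ℝ) ^ 3 + ((if a ∈ A then 1 / (p : ℝ) ^ 2 else 0) +
      (if a ∈ B then 1 / (q : ℝ) ^ 2 else 0))) = (p * q) * (1 / (q : ℝ) ^ 3) +
        (A.card * (1 / (p : ℝ) ^ 2) + B.card * (1 / (q : ℝ) ^ 2)) := by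
      rw [sum_add_distrib, sum_add_distrib, sum_const, card_univ, hcard, Finset.sum_ite_mem, Finset.sum_ite_mem,
        univ_inter, univ_inter, sum_const, sum_const]
      simp only [nsmul_eq_mul]
      push_cast
      ring
    have h3 : (p * q : ℝ) * (1 / (q : ℝ) ^ 3) ≤ 1 / p := by
      rw [mul_one_div, div_le_div_iff₀ (by positivity) hP]
      nlinarith [mul_le_mul hPQ hPQ hP.le hQ.le, mul_pos hP hQ]
    have h4 : (A.card : ℝ) * (1 / (p : ℝ) ^ 2) ≤ 1 / p := by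
      calc (A.card : ℝ) * (1 / (p : ℝ) ^ 2) ≤ p * (1 / (p : ℝ) ^ 2) :=
            mul_le_mul_of_nonneg_right hA (by positivity)
        _ = 1 / p := by field_simp
    have h5 : (B.card : ℝ) * (1 / (q : ℝ) ^ 2) ≤ 1 / p := by
      calc (B.card : ℝ) * (1 / (q : ℝ) ^ 2) ≤ q * (1 / (q : ℝ) ^ 2) :=
            mul_le_mul_of_nonneg_right hB (by positivity)
        _ = 1 / q := by field_simp
        _ ≤ 1 / p := one_div_le_one_div_of_le hP hPQ
    have h6 : (3 : ℝ) / p = 1 / p + (1 / p + 1 / p) := by ring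
    rw [h6]
    linarith
  have hmain := (hPF (p * q) T k hT).2
  have hn : (0 : ℝ) < ((p * q : ℕ) : ℝ) := by push_cast; positivity
  have h7 : (∑ a : ZMod (p * q), if a = 0 then 0 else ‖mu (p * q) T a‖ ^ k) / ((p * q : ℕ) : ℝ) ≤
      (3 / p) / ((p * q : ℕ) : ℝ) := div_le_div_of_nonneg_right hsum hn.le
  have h8 := (abs_le.mp (hmain.trans h7)).2
  push_cast at h8
  have h9 : 1 / ((p : ℝ) * q) * (1 + 3 / p) = 1 / ((p : ℝ) * q) + (3 / p) / ((p : ℝ) * q) := by ring
  rw [h9]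
  linarith

end Pool.Agent.Helper29.SPR
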