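import Pool.Agent.Helper36.SPR.St4

/-!
# Project SPR, module PS3: Parseval for the multiplicative convolution `rho`
-/

set_option autoImplicit false

namespace Pool.Agent.Helper29.SPR

open Finset
open scoped Pointwise
open Pool.Agent.Helper36.SPR

/-- Parseval identity for real functions on `ZMod n`. -/
private theorem parseval3 (n : ℕ) [NeZero n] (f : ZMod n → ℝ) (F : ZMod n → ℝ)
    (hF : ∀ a : ZMod n, ∑ x, (f x : ℂ) * ZMod.stdAddChar (a * x) = ((F a : ℝ) : ℂ)) :
    ∑ a : ZMod n, F a ^ 2 = n * ∑ x, f x ^ 2 := by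
  have key : ∀ a : ZMod n, ((F a : ℝ) : ℂ) ^ 2
      = ∑ x, ∑ y, ((f x : ℂ) * (f y : ℂ)) * ZMod.stdAddChar (a * (x - y)) := by
    intro a
    have h1 := hF a
    have h2 : ∑ x, (f x : ℂ) * ZMod.stdAddChar (-(a * x)) = ((F a : ℝ) : ℂ) := by
      have h3 := congrArg (starRingEnd ℂ) h1
      rw [map_sum, Complex.conj_ofReal] at h3
      rw [← h3]
      apply Finset.sum_congr rfl
      intro x _
      rw [map_mul, Complex.conj_ofReal, ← AddChar.map_neg_eq_conj]
    rw [pow_two]
    nth_rewrite 1 [← h1]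
    rw [← h2, Finset.sum_mul_sum]
    apply Finset.sum_congr rfl
    intro x _
    apply Finset.sum_congr rfl
    intro y _
    have h4 : a * (x - y) = a * x + -(a * y) := by ring
    rw [h4, AddChar.map_add_eq_mul]
    ring
  have h5 : (∑ a : ZMod n, ((F a : ℝ) : ℂ) ^ 2) = (n : ℂ) * ∑ x, (f x : ℂ) ^ 2 := by
    rw [Finset.sum_congr rfl (fun a _ => key a), Finset.sum_comm]
    rw [Finset.mul_sum]
    apply Finset.sum_congr rfl
    intro x _
    rw [Finset.sum_comm]
    have h6 : ∀ y : ZMod n, ∑ a : ZMod n, ((f x : ℂ) * (f y : ℂ)) * ZMod.stdAddChar (a * (x - y))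
        = if x = y then (n : ℂ) * (f x : ℂ) ^ 2 else 0 := by
      intro y
      rw [← Finset.mul_sum, AddChar.sum_mulShift _ (ZMod.isPrimitive_stdAddChar n)]
      rw [ZMod.card]
      by_cases hxy : x = y
      · subst hxy
        simp
        ring
      · have : x - y ≠ 0 := sub_ne_zero.mpr hxy
        simp [hxy, this]
    rw [Finset.sum_congr rfl (fun y _ => h6 y)]
    simp
  have h7 : (((∑ a : ZMod n, F a ^ 2 : ℝ)) : ℂ) = ((n * ∑ x, f x ^ 2 : ℝ) : ℂ) := by
    push_cast
    exact h5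
  exact_mod_cast h7

/-- Fourier transform of `rho`. -/
private theorem rho_hat3 (hNA : StNA3) (n T : ℕ) [NeZero n] (th : ZMod n) (hT : 0 < T) (j : ℕ) (a : ZMod n) :
    ∑ x, (rhov n T th j x : ℂ) * ZMod.stdAddChar (a * x)
      = ((∑ g, nuv n T th j g * ‖muv n T th (a * g)‖ ^ (2 * j) : ℝ) : ℂ) := by
  have h1 : ∀ x : ZMod n, (rhov n T th j x : ℂ) * ZMod.stdAddChar (a * x)
      = ∑ g : ZMod n, ∑ g' : ZMod n,
        if g * g' = x then ((nuv n T th j g : ℂ) * (nuv n T th j g' : ℂ)) * ZMod.stdAddChar (a * (g * g'))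
          else 0 := by
    intro x
    unfold rhov
    push_cast
    rw [Finset.sum_mul]
    apply Finset.sum_congr rfl
    intro g _
    rw [Finset.sum_mul]
    apply Finset.sum_congr rfl
    intro g' _
    by_cases h : g * g' = x
    · simp [h]
    · simp [h]
  rw [Finset.sum_congr rfl (fun x _ => h1 x), Finset.sum_comm]
  push_cast
  apply Finset.sum_congr rfl
  intro g _
  rw [Finset.sum_comm]
  have h2 := (hNA n T th hT j).2.2.1 (a * g)
  push_cast at h2
  rw [← h2, Finset.mul_sum]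
  apply Finset.sum_congr rfl
  intro g' _
  rw [Finset.sum_ite_eq]
  simp only [Finset.mem_univ, if_true]
  rw [mul_assoc a g g', mul_assoc]

theorem hPS3 (hNA : StNA3) (hNB : StNB3) (hPR : StPR3) : StPS3 := by
  intro n T _ th hT h2 j hj
  have hn : (0 : ℝ) < n := by
    have := NeZero.pos n
    exact_mod_cast this
  have h1 := parseval3 n (rhov n T th j) (fun a => ∑ g, nuv n T th j g * ‖muv n T th (a * g)‖ ^ (2 * j))
    (fun a => rho_hat3 hNA n T th hT j a)
  have h3 := (hNB n T th hT (4 * j ^ 2)).2.1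
  rw [h3, div_le_iff₀ hn, mul_comm _ (n : ℝ), ← h1]
  apply Finset.sum_le_sum
  intro a _
  have h4 := hPR n T th hT h2 j hj a
  have h5 : ‖muv n T th a‖ ^ (2 * (4 * j ^ 2)) = (‖muv n T th a‖ ^ (4 * j ^ 2)) ^ 2 := by
    rw [← pow_mul]
    congr 1
    ring
  rw [h5]
  exact pow_le_pow_left₀ (by positivity) h4 2

end Pool.Agent.Helper29.SPR
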